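import Pool.Agent.K1H5.FD.Stm3

set_option autoImplicit false

/-!
# Project FD, piece FD22 (`S_CHEV`): closed points of a dense open subset lift.

Chevalley's theorem (Mathlib) for the image of a basic open set, and the Jacobson property.
-/

namespace Pool.Agent.K1H59.FD

open PrimeSpectrum Topology Pool.Agent.K1H5.FD

private theorem jacInt : IsJacobsonRing ℤ := by
  rw [isJacobsonRing_iff_prime_eq]
  intro P hP
  by_cases h : P = ⊥
  · subst h
    rw [eq_bot_iff]
    intro x hx
    rw [Ideal.mem_jacobson_bot] at hx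
    have h1 := hx x
    rw [Int.isUnit_iff] at h1
    rw [Ideal.mem_bot]
    rcases h1 with h1 | h1
    · have : x * x = 0 := by linarith
      exact mul_self_eq_zero.1 this
    · exfalso
      nlinarith [mul_self_nonneg x]
  · have : P.IsMaximal := IsPrime.to_maximal_ideal h
    exact Ideal.jacobson_eq_self_of_isMaximal

/-- a constructible set which contains the generic point contains a nonempty basic open set -/
theorem basicOpen_subset_of_generic {A : Type} [CommRing A] [IsDomain A]
    {s : Set (PrimeSpectrum A)} (hs : IsConstructible s)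
    (hb : (⟨⊥, Ideal.isPrime_bot⟩ : PrimeSpectrum A) ∈ s) :
    ∃ c : A, c ≠ 0 ∧ ∀ x : PrimeSpectrum A, c ∉ x.asIdeal → x ∈ s := by
  obtain ⟨S, rfl⟩ := exists_constructibleSetData_iff.mpr hs
  simp only [ConstructibleSetData.toSet, Set.mem_iUnion] at hb
  obtain ⟨C, hC, hC'⟩ := hb
  have h1 : ∀ i, C.g i = 0 := by
    intro i
    have := hC'.1
    rw [mem_zeroLocus] at this
    have h2 := this ⟨i, rfl⟩
    simpa using h2
  have h2 : C.f ≠ 0 := by
    intro h
    refine hC'.2 ?_
    rw [mem_zeroLocus, h]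
    simp
  refine ⟨C.f, h2, fun x hx => ?_⟩
  simp only [ConstructibleSetData.toSet, Set.mem_iUnion]
  refine ⟨C, hC, ?_, ?_⟩
  · rw [mem_zeroLocus]
    rintro _ ⟨i, rfl⟩
    rw [h1 i]
    exact x.asIdeal.zero_mem
  · rw [mem_zeroLocus, Set.singleton_subset_iff]
    exact hx

theorem t_CHEV : S_CHEV := by
  intro R₀ R _ _ _ _ _ _ _ hinj c hc
  have hN : IsNoetherianRing R₀ := Algebra.FiniteType.isNoetherianRing ℤ R₀
  have hft : Algebra.FiniteType R₀ R := Algebra.FiniteType.of_restrictScalars_finiteType ℤ R₀ R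
  have hfp : Algebra.FinitePresentation R₀ R := Algebra.FinitePresentation.of_finiteType.mp hft
  have hJ : IsJacobsonRing R := by
    have := jacInt
    exact isJacobsonRing_of_finiteType (A := ℤ)
  have hcon : IsConstructible
      (comap (algebraMap R₀ R) '' (basicOpen c : Set (PrimeSpectrum R))) :=
    isConstructible_comap_image (RingHom.finitePresentation_algebraMap.mpr hfp)
      isConstructible_basicOpen
  obtain ⟨c₀, hc₀, H⟩ := basicOpen_subset_of_generic hcon
    ⟨⟨⊥, Ideal.isPrime_bot⟩, by simpa using hc, by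
      ext x
      simp only [comap_asIdeal, Ideal.mem_comap, Ideal.mem_bot]
      exact map_eq_zero_iff _ hinj⟩
  refine ⟨c₀, hc₀, fun 𝔫 h𝔫 hcn => ?_⟩
  obtain ⟨q, hq, hq'⟩ := H ⟨𝔫, h𝔫.isPrime⟩ hcn
  have hcq : c ∉ q.asIdeal := hq
  have hqn : q.asIdeal.comap (algebraMap R₀ R) = 𝔫 := by
    have := congrArg PrimeSpectrum.asIdeal hq'
    simpa using this
  have hjac : q.asIdeal.jacobson = q.asIdeal :=
    isJacobsonRing_iff_prime_eq.mp hJ q.asIdeal q.isPrime
  rw [← hjac, Ideal.jacobson, Ideal.mem_sInf] at hcq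
  push Not at hcq
  obtain ⟨𝔪, ⟨hqm, hm⟩, hcm⟩ := hcq
  refine ⟨𝔪, hm, hcm, ?_⟩
  have hle : 𝔫 ≤ 𝔪.comap (algebraMap R₀ R) := by
    rw [← hqn]
    exact Ideal.comap_mono hqm
  have hne : 𝔪.comap (algebraMap R₀ R) ≠ ⊤ := Ideal.comap_ne_top _ hm.ne_top
  exact (h𝔫.eq_of_le hne hle).symm

end Pool.Agent.K1H59.FD
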